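import Pool.Agent.U325.DS.Quasi

set_option autoImplicit false

/-! Fourier transforms of Frostman measures at most dilates of all frequencies `log (m/n)`. -/

namespace Pool.Agent.U325.DS

open Finset Complex MeasureTheory Filter Topology
open scoped ENNReal

noncomputable section

/-- the kernel -/
def ker (R t : ℝ) : ℝ := if t = 0 then 2 * R else min (2 * R) (2 / |t|)

lemma ker_nonneg {R : ℝ} (hR : 0 ≤ R) (t : ℝ) : 0 ≤ ker R t := by
  unfold ker
  split_ifs
  · positivity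
  · exact le_min (by positivity) (by positivity)

lemma ker_le {R : ℝ} (t : ℝ) : ker R t ≤ 2 * R := by
  unfold ker
  split_ifs
  · exact le_rfl
  · exact min_le_left _ _

lemma ker_meas (R : ℝ) : Measurable (ker R) := by
  unfold ker
  refine Measurable.ite (measurableSet_singleton 0) measurable_const ?_
  exact measurable_const.min (measurable_const.div measurable_id.abs)

lemma int_cos_le {Y : ℝ} (hY : 0 ≤ Y) {lam : ℝ} (hl : lam ≠ 0) (t : ℝ) :
    ∫ T in (-Y)..Y, Real.cos (T * (lam * t)) ≤ |lam|⁻¹ * ker (Y * |lam|) t := by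
  have hl' : 0 < |lam| := abs_pos.2 hl
  have h2 : ∫ T in (-Y)..Y, Real.cos (T * (lam * t)) ≤ 2 * Y := by
    have h3 : ∫ T in (-Y)..Y, Real.cos (T * (lam * t)) ≤ ∫ T in (-Y)..Y, (1:ℝ) := by
      refine intervalIntegral.integral_mono_on (by linarith)
        ((by fun_prop : Continuous fun T : ℝ => Real.cos (T * (lam * t))).intervalIntegrable _ _) (by simp) ?_
      intro T _
      exact Real.cos_le_one _
    simp at h3
    linarith
  have e2 : |lam|⁻¹ * (2 * (Y * |lam|)) = 2 * Y := by field_simp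
  unfold ker
  split_ifs with h
  · rw [e2]; exact h2
  · have h4 := int_cos (mul_ne_zero hl h) Y
    rw [abs_mul] at h4
    rw [inv_mul_eq_div, le_div_iff₀ hl', le_min_iff]
    constructor
    · nlinarith
    · have ht : 0 < |t| := abs_pos.2 h
      rw [le_div_iff₀ ht]
      rw [le_div_iff₀ (by positivity)] at h4
      linarith

/-- the layers -/
lemma ker_layers {R : ℝ} (hR : 0 < R) (t : ℝ) :
    ENNReal.ofReal (ker R t) ≤ ∑' k : ℕ, ENNReal.ofReal (2 * R * (2 ^ k)⁻¹) *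
      (if |t| ≤ 2 ^ (k + 1) / R then 1 else 0) := by
  rcases le_or_gt |t| (2 / R) with h | h
  · refine le_trans ?_ (ENNReal.le_tsum 0)
    rw [if_pos (by simpa using h)]
    simp only [pow_zero, inv_one, mul_one]
    exact ENNReal.ofReal_le_ofReal (ker_le t)
  · have ht : 0 < |t| := lt_trans (by positivity) h
    have h1 : 2 < |t| * R := by rwa [div_lt_iff₀ hR] at h
    -- choose k with 2^k < |t| R ≤ 2^(k+1)
    have hex : ∃ k : ℕ, |t| * R ≤ 2 ^ (k + 1) := by
      obtain ⟨k, hk⟩ := pow_unbounded_of_one_lt (|t| * R) (by norm_num : (1:ℝ) < 2)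
      exact ⟨k, hk.le.trans (pow_le_pow_right₀ (by norm_num) (by omega))⟩
    classical
    set k := Nat.find hex with hk
    have hk1 : |t| * R ≤ 2 ^ (k + 1) := Nat.find_spec hex
    have hk0 : k ≠ 0 := by
      intro h0
      rw [h0] at hk1
      norm_num at hk1
      linarith
    have hk2 : 2 ^ k < |t| * R := by
      have := Nat.find_min hex (m := k - 1) (by omega)
      rw [not_le, show k - 1 + 1 = k by omega] at this
      exact this
    refine le_trans ?_ (ENNReal.le_tsum k)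
    rw [if_pos (by rw [le_div_iff₀ hR]; exact hk1), mul_one]
    refine ENNReal.ofReal_le_ofReal ?_
    unfold ker
    rw [if_neg (abs_pos.1 ht)]
    refine (min_le_right _ _).trans ?_
    rw [← div_eq_mul_inv, div_le_div_iff₀ ht (by positivity)]
    nlinarith

/-- Frostman measures on `[1,2]` -/
structure Fro (s K : ℝ) (μ : Measure ℝ) : Prop where
  prob : IsProbabilityMeasure μ
  supp : ∀ᵐ x ∂μ, x ∈ Set.Icc (1:ℝ) 2
  ball : ∀ x r : ℝ, 0 < r → μ (Metric.closedBall x r) ≤ ENNReal.ofReal (K * r ^ s)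

/-- the constant of the energy bound -/
def cE (s : ℝ) : ℝ := 4 * ∑' k : ℕ, ((2:ℝ) ^ (s - 1)) ^ k

lemma geo_summable {s : ℝ} (hs : s < 1) : Summable fun k : ℕ => ((2:ℝ) ^ (s - 1)) ^ k :=
  summable_geometric_of_lt_one (by positivity) (Real.rpow_lt_one_of_one_lt_of_neg (by norm_num) (by linarith))

lemma cE_nonneg (s : ℝ) : 0 ≤ cE s := by
  unfold cE
  have : 0 ≤ ∑' k : ℕ, ((2:ℝ) ^ (s - 1)) ^ k := tsum_nonneg fun k => by positivity
  positivity

lemma energy_point {s K : ℝ} (hs0 : 0 < s) (hs : s < 1) (hK : 0 ≤ K) {μ : Measure ℝ} (hμ : Fro s K μ) {R : ℝ} (hR : 0 < R)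
    (x : ℝ) : ∫⁻ y, ENNReal.ofReal (ker R (x - y)) ∂μ ≤ ENNReal.ofReal (cE s * K * R ^ (1 - s)) := by
  have h1 : ∫⁻ y, ENNReal.ofReal (ker R (x - y)) ∂μ ≤
      ∫⁻ y, ∑' k : ℕ, ENNReal.ofReal (2 * R * (2 ^ k)⁻¹) * (if |x - y| ≤ 2 ^ (k + 1) / R then 1 else 0) ∂μ :=
    lintegral_mono fun y => ker_layers hR (x - y)
  refine h1.trans ?_
  have hm : ∀ k : ℕ, Measurable fun y : ℝ => (if |x - y| ≤ 2 ^ (k + 1) / R then (1:ℝ≥0∞) else 0) := by
    intro k
    refine Measurable.ite (measurableSet_le (by fun_prop) measurable_const) measurable_const measurable_const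
  rw [lintegral_tsum (fun k => ((hm k).const_mul _).aemeasurable)]
  have h2 : ∀ k : ℕ, ∫⁻ y, ENNReal.ofReal (2 * R * (2 ^ k)⁻¹) * (if |x - y| ≤ 2 ^ (k + 1) / R then 1 else 0) ∂μ ≤
      ENNReal.ofReal (4 * K * R ^ (1 - s) * ((2:ℝ) ^ (s - 1)) ^ k) := by
    intro k
    rw [lintegral_const_mul _ (hm k)]
    have h3 : ∫⁻ y, (if |x - y| ≤ 2 ^ (k + 1) / R then (1:ℝ≥0∞) else 0) ∂μ = μ (Metric.closedBall x (2 ^ (k + 1) / R)) := by
      have e : (fun y : ℝ => (if |x - y| ≤ 2 ^ (k + 1) / R then (1:ℝ≥0∞) else 0)) =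
          (Metric.closedBall x (2 ^ (k + 1) / R)).indicator 1 := by
        classical
        funext y
        rw [Set.indicator_apply]
        refine if_congr ?_ rfl rfl
        rw [Metric.mem_closedBall, Real.dist_eq, abs_sub_comm]
      rw [e, lintegral_indicator_one Metric.isClosed_closedBall.measurableSet]
    rw [h3]
    refine (mul_le_mul_right (hμ.ball x _ (by positivity)) _).trans ?_
    rw [← ENNReal.ofReal_mul (by positivity)]
    refine ENNReal.ofReal_le_ofReal ?_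
    have e1 : (2 ^ (k + 1) / R : ℝ) ^ s = 2 ^ s * ((2:ℝ) ^ s) ^ k / R ^ s := by
      rw [Real.div_rpow (by positivity) hR.le, ← Real.rpow_natCast, ← Real.rpow_natCast, ← Real.rpow_mul (by norm_num),
        ← Real.rpow_mul (by norm_num), ← Real.rpow_add (by norm_num)]
      congr 2
      push_cast; ring
    have e2 : ((2:ℝ) ^ (s - 1)) ^ k = ((2:ℝ) ^ s) ^ k * (2 ^ k)⁻¹ := by
      rw [Real.rpow_sub (by norm_num), Real.rpow_one, div_pow, div_eq_mul_inv]
    have e3 : R ^ (1 - s) = R / R ^ s := by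
      rw [Real.rpow_sub hR, Real.rpow_one]
    rw [e1, e2, e3]
    have h2s : (2:ℝ) ^ s ≤ 2 := by
      calc (2:ℝ) ^ s ≤ 2 ^ (1:ℝ) := Real.rpow_le_rpow_of_exponent_le (by norm_num) hs.le
        _ = 2 := Real.rpow_one _
    have hRs : 0 < R ^ s := by positivity
    have hp : 0 ≤ K * (R / R ^ s) * (((2:ℝ) ^ s) ^ k * (2 ^ k)⁻¹) := by positivity
    calc 2 * R * (2 ^ k)⁻¹ * (K * (2 ^ s * ((2:ℝ) ^ s) ^ k / R ^ s))
        = 2 * 2 ^ s * (K * (R / R ^ s) * (((2:ℝ) ^ s) ^ k * (2 ^ k)⁻¹)) := by ring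
      _ ≤ 2 * 2 * (K * (R / R ^ s) * (((2:ℝ) ^ s) ^ k * (2 ^ k)⁻¹)) := by gcongr
      _ = _ := by ring
  refine (ENNReal.tsum_le_tsum h2).trans ?_
  rw [← ENNReal.ofReal_tsum_of_nonneg (fun k => by positivity) ((geo_summable hs).mul_left _), tsum_mul_left]
  refine ENNReal.ofReal_le_ofReal (le_of_eq ?_)
  unfold cE
  ring

/-- the Fourier transform -/
def ft (μ : Measure ℝ) (u : ℝ) : ℂ := ∫ x : ℝ, exp (I * ((u * x : ℝ) : ℂ)) ∂μ

lemma ft_sq (μ : Measure ℝ) [IsProbabilityMeasure μ] (u : ℝ) :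
    ‖ft μ u‖ ^ 2 = ∫ z : ℝ × ℝ, Real.cos (u * (z.1 - z.2)) ∂(μ.prod μ) := by
  have hi : Integrable (fun x : ℝ => exp (I * ((u * x : ℝ) : ℂ))) μ := by
    refine Integrable.of_bound (C := 1) (by fun_prop) (Eventually.of_forall fun x => ?_)
    rw [mul_comm, Complex.norm_exp_ofReal_mul_I]
  have hc : Integrable (fun x : ℝ => Real.cos (u * x)) μ :=
    Integrable.of_bound (C := 1) (by fun_prop) (Eventually.of_forall fun x => Real.abs_cos_le_one _)
  have hs : Integrable (fun x : ℝ => Real.sin (u * x)) μ :=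
    Integrable.of_bound (C := 1) (by fun_prop) (Eventually.of_forall fun x => Real.abs_sin_le_one _)
  have hre : (ft μ u).re = ∫ x, Real.cos (u * x) ∂μ := by
    unfold ft
    rw [← RCLike.re_eq_complex_re, ← integral_re hi]
    congr 1; funext x
    rw [RCLike.re_eq_complex_re, mul_comm, Complex.exp_ofReal_mul_I_re]
  have him : (ft μ u).im = ∫ x, Real.sin (u * x) ∂μ := by
    unfold ft
    rw [← RCLike.im_eq_complex_im, ← integral_im hi]
    congr 1; funext x
    rw [RCLike.im_eq_complex_im, mul_comm, Complex.exp_ofReal_mul_I_im]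
  rw [← Complex.normSq_eq_norm_sq, Complex.normSq_apply, hre, him,
    ← integral_prod_mul (fun x => Real.cos (u * x)) (fun x => Real.cos (u * x)),
    ← integral_prod_mul (fun x => Real.sin (u * x)) (fun x => Real.sin (u * x)),
    ← integral_add (hc.mul_prod hc) (hs.mul_prod hs)]
  congr 1; funext z
  rw [mul_sub, Real.cos_sub]

lemma ft_cont (μ : Measure ℝ) [IsProbabilityMeasure μ] : Continuous (ft μ) := by
  unfold ft
  refine continuous_of_dominated (bound := fun _ => 1) (fun u => by fun_prop) ?_ (by simp) ?_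
  · intro u
    refine Eventually.of_forall fun x => ?_
    rw [mul_comm, Complex.norm_exp_ofReal_mul_I]
  · exact Eventually.of_forall fun x => by fun_prop

lemma mean_ft {s K : ℝ} (hs0 : 0 < s) (hs : s < 1) (hK : 0 ≤ K) {μ : Measure ℝ} (hμ : Fro s K μ) {Y : ℝ} (hY : 0 < Y)
    {lam : ℝ} (hl : lam ≠ 0) :
    ∫ T in (-Y)..Y, ‖ft μ (T * lam)‖ ^ 2 ≤ cE s * K * Y ^ (1 - s) * (1 + 1 / |lam|) := by
  have hl' : 0 < |lam| := abs_pos.2 hl
  have := hμ.prob
  have hle : -Y ≤ Y := by linarith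
  simp only [ft_sq]
  rw [intervalIntegral.integral_of_le hle]
  have hint : Integrable (Function.uncurry fun (T : ℝ) (z : ℝ × ℝ) => Real.cos (T * lam * (z.1 - z.2)))
      ((volume.restrict (Set.Ioc (-Y) Y)).prod (μ.prod μ)) := by
    refine Integrable.of_bound (C := 1) ?_ (Eventually.of_forall fun p => ?_)
    · refine Continuous.aestronglyMeasurable ?_
      fun_prop
    · exact Real.abs_cos_le_one _
  rw [integral_integral_swap hint]
  have hR : 0 < Y * |lam| := by positivity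
  have hker : Measurable fun z : ℝ × ℝ => ker (Y * |lam|) (z.1 - z.2) :=
    (ker_meas _).comp (measurable_fst.sub measurable_snd)
  have hkint : Integrable (fun z : ℝ × ℝ => |lam|⁻¹ * ker (Y * |lam|) (z.1 - z.2)) (μ.prod μ) := by
    refine Integrable.const_mul (Integrable.of_bound (C := 2 * (Y * |lam|)) hker.aestronglyMeasurable
      (Eventually.of_forall fun z => ?_)) _
    rw [Real.norm_of_nonneg (ker_nonneg hR.le _)]
    exact ker_le _
  have h1 : ∫ z : ℝ × ℝ, (∫ T in Set.Ioc (-Y) Y, Real.cos (T * lam * (z.1 - z.2))) ∂(μ.prod μ) ≤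
      ∫ z : ℝ × ℝ, |lam|⁻¹ * ker (Y * |lam|) (z.1 - z.2) ∂(μ.prod μ) := by
    refine integral_mono hint.integral_prod_right hkint fun z => ?_
    have h2 := int_cos_le hY.le hl (z.1 - z.2)
    rw [intervalIntegral.integral_of_le hle] at h2
    refine le_trans (le_of_eq ?_) h2
    congr 1; funext T
    congr 1; ring
  refine h1.trans ?_
  rw [integral_const_mul]
  have h3 : ∫ z : ℝ × ℝ, ker (Y * |lam|) (z.1 - z.2) ∂(μ.prod μ) ≤ cE s * K * (Y * |lam|) ^ (1 - s) := by
    rw [integral_eq_lintegral_of_nonneg_ae (Eventually.of_forall fun z => ker_nonneg hR.le _) hker.aestronglyMeasurable]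
    refine ENNReal.toReal_le_of_le_ofReal (by have := cE_nonneg s; positivity) ?_
    rw [lintegral_prod _ hker.ennreal_ofReal.aemeasurable]
    calc ∫⁻ x, ∫⁻ y, ENNReal.ofReal (ker (Y * |lam|) (x - y)) ∂μ ∂μ
        ≤ ∫⁻ _, ENNReal.ofReal (cE s * K * (Y * |lam|) ^ (1 - s)) ∂μ :=
          lintegral_mono fun x => energy_point hs0 hs hK hμ hR x
      _ = _ := by simp
  have h4 : 0 ≤ cE s * K := mul_nonneg (cE_nonneg s) hK
  calc |lam|⁻¹ * ∫ z : ℝ × ℝ, ker (Y * |lam|) (z.1 - z.2) ∂(μ.prod μ)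
      ≤ |lam|⁻¹ * (cE s * K * (Y * |lam|) ^ (1 - s)) := by gcongr
    _ = cE s * K * Y ^ (1 - s) * (|lam|⁻¹ * |lam| ^ (1 - s)) := by
        rw [Real.mul_rpow hY.le hl'.le]; ring
    _ ≤ cE s * K * Y ^ (1 - s) * (1 + 1 / |lam|) := by
        refine mul_le_mul_of_nonneg_left ?_ (by positivity)
        have e : |lam|⁻¹ * |lam| ^ (1 - s) = |lam| ^ (-s) := by
          rw [← Real.rpow_neg_one, ← Real.rpow_add hl']
          congr 1; ring
        rw [e]
        rcases le_or_gt 1 |lam| with h5 | h5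
        · have h6 := Real.rpow_le_one_of_one_le_of_nonpos h5 (by linarith : -s ≤ 0)
          have : 0 ≤ 1 / |lam| := by positivity
          linarith
        · have h6 : |lam| ^ (-s) ≤ |lam| ^ (-1 : ℝ) :=
            Real.rpow_le_rpow_of_exponent_ge hl' h5.le (by linarith)
          rw [Real.rpow_neg_one] at h6
          rw [one_div]
          linarith

/-- the terms of the series -/
def tf (μ : Measure ℝ) (δ : ℝ) (p : ℕ × ℕ) (T : ℝ) : ℝ :=
  if p.1 = p.2 then 0 else (wI δ p.1 * wI δ p.2) * (1 + 1 / |fr p.1 p.2|)⁻¹ * ‖ft μ (T * fr p.1 p.2)‖ ^ 2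

lemma tf_nonneg (μ : Measure ℝ) (δ : ℝ) (p : ℕ × ℕ) (T : ℝ) : 0 ≤ tf μ δ p T := by
  unfold tf
  split_ifs
  · exact le_rfl
  · have h2 := (wI_pos δ p.1).le
    have h3 := (wI_pos δ p.2).le
    positivity

lemma tf_cont (μ : Measure ℝ) [IsProbabilityMeasure μ] (δ : ℝ) (p : ℕ × ℕ) : Continuous (tf μ δ p) := by
  unfold tf
  split_ifs
  · exact continuous_const
  · exact continuous_const.mul (((ft_cont μ).comp (by fun_prop : Continuous fun T : ℝ => T * fr p.1 p.2)).norm.pow 2)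

/-- the sum of the series of weights -/
def sW (δ : ℝ) : ℝ := ∑' q : ℕ × ℕ, wI δ q.1 * wI δ q.2

lemma sW_nonneg (δ : ℝ) : 0 ≤ sW δ :=
  tsum_nonneg fun q => mul_nonneg (wI_pos δ q.1).le (wI_pos δ q.2).le

lemma mean_tf {s K : ℝ} (hs0 : 0 < s) (hs : s < 1) (hK : 0 ≤ K) {μ : Measure ℝ} (hμ : Fro s K μ) {Y : ℝ} (hY : 0 < Y)
    {δ : ℝ} (hδ : 0 < δ) :
    ∫⁻ T in Set.Ioc (-Y) Y, ∑' p : ℕ × ℕ, ENNReal.ofReal (tf μ δ p T) ≤
      ENNReal.ofReal (cE s * K * Y ^ (1 - s) * sW δ) := by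
  have := hμ.prob
  rw [lintegral_tsum (fun p => (tf_cont μ δ p).measurable.ennreal_ofReal.aemeasurable)]
  have hle : -Y ≤ Y := by linarith
  have h4 : 0 ≤ cE s * K := mul_nonneg (cE_nonneg s) hK
  have h1 : ∀ p : ℕ × ℕ, ∫⁻ T in Set.Ioc (-Y) Y, ENNReal.ofReal (tf μ δ p T) ≤
      ENNReal.ofReal (cE s * K * Y ^ (1 - s) * (wI δ p.1 * wI δ p.2)) := by
    intro p
    have h2 := (wI_pos δ p.1).le
    have h3 := (wI_pos δ p.2).le
    rw [← ofReal_integral_eq_lintegral_ofReal]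
    · rw [← intervalIntegral.integral_of_le hle]
      refine ENNReal.ofReal_le_ofReal ?_
      unfold tf
      split_ifs with h
      · simp only [intervalIntegral.integral_zero]
        positivity
      · rw [intervalIntegral.integral_const_mul]
        have h5 := mean_ft hs0 hs hK hμ hY (fr_ne h)
        have h6 : 0 < 1 + 1 / |fr p.1 p.2| := by positivity
        calc _ ≤ wI δ p.1 * wI δ p.2 * (1 + 1 / |fr p.1 p.2|)⁻¹ * (cE s * K * Y ^ (1 - s) * (1 + 1 / |fr p.1 p.2|)) :=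
              mul_le_mul_of_nonneg_left h5 (by positivity)
          _ = _ := by field_simp
    · exact (intervalIntegrable_iff_integrableOn_Ioc_of_le hle).1 ((tf_cont μ δ p).intervalIntegrable _ _)
    · exact Eventually.of_forall fun T => tf_nonneg μ δ p T
  refine (ENNReal.tsum_le_tsum h1).trans (le_of_eq ?_)
  have h2 : Summable fun q : ℕ × ℕ => wI δ q.1 * wI δ q.2 :=
    (wI_summable hδ).mul_of_nonneg (wI_summable hδ) (fun m => (wI_pos δ m).le) (fun m => (wI_pos δ m).le)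
  rw [← ENNReal.ofReal_tsum_of_nonneg (fun q => by
    have := (wI_pos δ q.1).le; have := (wI_pos δ q.2).le; positivity) (h2.mul_left _), tsum_mul_left]
  rfl

/-- For Frostman measures all characters have a power saving at most dilates. -/
theorem most {s : ℝ} (hs0 : 0 < s) (hs : s < 1) {K : ℝ} (hK : 0 ≤ K) {δ η : ℝ} (hδ : 0 < δ) (hη : 0 < η) :
    ∃ X₀ : ℝ, 1 ≤ X₀ ∧ ∀ X : ℝ, X₀ ≤ X → ∀ μ : Measure ℝ, Fro s K μ →
      ∃ A : Set ℝ, MeasurableSet A ∧ volume A ≤ ENNReal.ofReal (X ^ (1 - η)) ∧ ∀ T ∈ Set.Icc X (2 * X), T ∉ A →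
        ∀ m n : ℕ, 1 ≤ m → 1 ≤ n → m ≠ n → ‖ft μ (T * Real.log ((m : ℝ) / n))‖ ^ 2 ≤
          X ^ (-s + 2 * η) * ((m : ℝ) * n) ^ (1 + δ) * (1 + 1 / |Real.log ((m : ℝ) / n)|) := by
  have t1 : Tendsto (fun X : ℝ => (cE s * K * 2 ^ (1 - s) * sW δ) * X ^ (-η)) atTop (𝓝 ((cE s * K * 2 ^ (1 - s) * sW δ) * 0)) :=
    (tendsto_rpow_neg_atTop hη).const_mul _
  rw [mul_zero] at t1
  obtain ⟨X₁, hX₁⟩ := eventually_atTop.mp (t1.eventually (gt_mem_nhds (show (0:ℝ) < 1 by norm_num)))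
  refine ⟨max 1 X₁, le_max_left _ _, fun X hX μ hμ => ?_⟩
  have hX1 : 1 ≤ X := (le_max_left _ _).trans hX
  have hX0 : 0 < X := by linarith
  have hXc := (hX₁ X ((le_max_right _ _).trans hX)).le
  have := hμ.prob
  set G : ℝ → ℝ≥0∞ := fun T => ∑' p : ℕ × ℕ, ENNReal.ofReal (tf μ δ p T) with hG
  have hGm : Measurable G := Measurable.tsum fun p => (tf_cont μ δ p).measurable.ennreal_ofReal
  set c : ℝ := X ^ (-s + 2 * η) with hc
  have hc0 : 0 < c := by rw [hc]; positivity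
  refine ⟨{T | ENNReal.ofReal c ≤ G T} ∩ Set.Ioc (-(2 * X)) (2 * X),
    (measurableSet_le measurable_const hGm).inter measurableSet_Ioc, ?_, ?_⟩
  · have h1 := mean_tf hs0 hs hK hμ (Y := 2 * X) (by positivity) hδ
    have h2 := mul_meas_ge_le_lintegral (μ := volume.restrict (Set.Ioc (-(2 * X)) (2 * X))) hGm (ENNReal.ofReal c)
    rw [Measure.restrict_apply (measurableSet_le measurable_const hGm)] at h2
    have h3 := h2.trans h1
    have h4 : cE s * K * (2 * X) ^ (1 - s) * sW δ ≤ c * X ^ (1 - η) := by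
      have e1 : (2 * X) ^ (1 - s) = 2 ^ (1 - s) * X ^ (1 - s) := Real.mul_rpow (by norm_num) hX0.le
      have e2 : X ^ (1 - s) = X ^ (-η) * (c * X ^ (1 - η)) := by
        rw [hc, ← Real.rpow_add hX0, ← Real.rpow_add hX0]
        congr 1; ring
      have e3 : 0 ≤ c * X ^ (1 - η) := by positivity
      calc cE s * K * (2 * X) ^ (1 - s) * sW δ = ((cE s * K * 2 ^ (1 - s) * sW δ) * X ^ (-η)) * (c * X ^ (1 - η)) := by
            rw [e1, e2]; ring
        _ ≤ 1 * (c * X ^ (1 - η)) := by gcongr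
        _ = _ := one_mul _
    have h5 := h3.trans (ENNReal.ofReal_le_ofReal h4)
    rw [ENNReal.ofReal_mul hc0.le] at h5
    exact (ENNReal.mul_le_mul_iff_right (by simpa using hc0) ENNReal.ofReal_ne_top).1 h5
  · intro T hT hTA m n hm hn hmn
    obtain ⟨m, rfl⟩ : ∃ m', m = m' + 1 := ⟨m - 1, by omega⟩
    obtain ⟨n, rfl⟩ : ∃ n', n = n' + 1 := ⟨n - 1, by omega⟩
    have hmn' : m ≠ n := fun h => hmn (by rw [h])
    have h1 : G T < ENNReal.ofReal c := by
      by_contra h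
      rw [not_lt] at h
      exact hTA ⟨h, by constructor <;> linarith [hT.1, hT.2]⟩
    have h2 := ENNReal.le_tsum (f := fun p : ℕ × ℕ => ENNReal.ofReal (tf μ δ p T)) (m, n)
    have h3 := (h2.trans h1.le)
    rw [ENNReal.ofReal_le_ofReal_iff hc0.le] at h3
    unfold tf at h3
    rw [if_neg hmn'] at h3
    simp only at h3
    have hfr : fr m n = Real.log (((m + 1 : ℕ) : ℝ) / ((n + 1 : ℕ) : ℝ)) := by unfold fr; push_cast; rfl
    rw [← hfr]
    set lam := fr m n with hlam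
    have hpos : 0 < 1 + 1 / |lam| := by positivity
    set q := ‖ft μ (T * lam)‖ ^ 2
    have p3 : 0 < ((m:ℝ) + 1) ^ (1 + δ) := by positivity
    have p4 : 0 < ((n:ℝ) + 1) ^ (1 + δ) := by positivity
    unfold wI at h3
    have e3 : ((((m : ℝ) + 1) ^ (1 + δ))⁻¹ * (((n : ℝ) + 1) ^ (1 + δ))⁻¹) * (1 + 1 / |lam|)⁻¹ * q =
        q / ((((m:ℝ) + 1) ^ (1 + δ) * ((n:ℝ) + 1) ^ (1 + δ)) * (1 + 1 / |lam|)) := by
      field_simp
    rw [e3, div_le_iff₀ (by positivity)] at h3
    refine h3.trans (le_of_eq ?_)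
    push_cast
    rw [Real.mul_rpow (x := (m:ℝ) + 1) (y := (n:ℝ) + 1) (by positivity) (by positivity)]
    ring

end

end Pool.Agent.U325.DS
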