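import Pool.Agent.H221R2.FB_VdcGen

set_option autoImplicit false

/-! Exponential sums along curves with alternating derivatives. -/

namespace Pool.Agent.U325.DS

open Finset

noncomputable section

/-- the exponential `e(x) = e^(2πix)` -/
def ee (x : ℝ) : ℂ := Complex.exp (((2 * Real.pi * x : ℝ) : ℂ) * Complex.I)

/-- `F 0` has the derivatives `F 1, F 2, ...` on `[1,3]`, with alternating signs, between `c₀` and `C₀` in absolute value -/
def Der (M : ℕ) (c₀ C₀ : ℝ) (F : ℕ → ℝ → ℝ) : Prop :=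
  (∀ m ≤ M + 4, ∀ x ∈ Set.Icc (1:ℝ) 3, HasDerivAt (F m) (F (m + 1) x) x) ∧
  (∀ m, 1 ≤ m → m ≤ M + 4 → ∀ x ∈ Set.Icc (1:ℝ) 3, c₀ ≤ (-1) ^ (m + 1) * F m x ∧ (-1) ^ (m + 1) * F m x ≤ C₀)

theorem curve_sum (M : ℕ) (c₀ C₀ : ℝ) (hc : 0 < c₀) : ∃ η : ℝ, 0 < η ∧ η ≤ 1 ∧ ∃ C : ℝ, 0 < C ∧
    ∀ (B L : ℕ) (u ξ : ℝ) (F : ℕ → ℝ → ℝ), Der M c₀ C₀ F → 1 ≤ B → (B : ℝ) ≤ u → L ≤ B → u + L ≤ 3 * B →
    1 ≤ |ξ| → |ξ| ≤ (B : ℝ) ^ M →
    ‖∑ n ∈ range L, ee (ξ * F 0 ((u + n) / B))‖ ≤ C * ((B : ℝ) ^ (1 - η) + B / |ξ|) := by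
  obtain ⟨η, h1, h2, C, h3, h4⟩ := H221R2.FB.vdc_gen M c₀ C₀ hc
  refine ⟨η, h1, h2, C, h3, fun B L u ξ F hF hB hu hL huL hξ1 hξ2 => ?_⟩
  have hB0 : (0:ℝ) < B := by exact_mod_cast hB
  have hmem : ∀ t ∈ Set.Icc (B : ℝ) (3 * B), t / B ∈ Set.Icc (1:ℝ) 3 := by
    intro t ht
    rw [Set.mem_Icc, le_div_iff₀ hB0, div_le_iff₀ hB0]
    exact ⟨by linarith [ht.1], ht.2⟩
  have h5 := h4 B L u ξ (fun m x => F m (x / B) / (B : ℝ) ^ m) hB hu hL huL ?_ ?_ hξ1 hξ2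
  · simp only [pow_zero, div_one] at h5
    exact h5
  · intro m hm t ht
    have h6 := hF.1 m hm _ (hmem t ht)
    have h7 : HasDerivAt (fun x : ℝ => x / B) (1 / B) t := (hasDerivAt_id t).div_const _
    have h8 := (h6.comp t h7).div_const ((B : ℝ) ^ m)
    refine h8.congr_deriv ?_
    rw [pow_succ]
    field_simp
  · intro m hm1 hm2 t ht
    have h6 := hF.2 m hm1 hm2 _ (hmem t ht)
    have e : (-1) ^ (m + 1) * (F m (t / B) / (B : ℝ) ^ m) * (B : ℝ) ^ m = (-1) ^ (m + 1) * F m (t / B) := by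
      field_simp
    rw [e]
    exact h6

/-- the falling factorial -/
def cf (p : ℝ) (m : ℕ) : ℝ := ∏ i ∈ range m, (p - i)

lemma cf_succ (p : ℝ) (m : ℕ) : cf p (m + 1) = cf p m * (p - m) := by
  unfold cf; rw [prod_range_succ]

/-- the derivatives of the power -/
def pw (p : ℝ) (m : ℕ) (x : ℝ) : ℝ := cf p m * x ^ (p - m)

lemma pw_deriv (p : ℝ) (m : ℕ) {x : ℝ} (hx : 0 < x) : HasDerivAt (pw p m) (pw p (m + 1) x) x := by
  unfold pw
  have h := (Real.hasDerivAt_rpow_const (p := p - m) (Or.inl hx.ne')).const_mul (cf p m)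
  refine h.congr_deriv ?_
  rw [cf_succ]
  push_cast
  rw [show p - ((m:ℝ) + 1) = p - m - 1 by ring]
  ring

lemma cf_sign (p : ℝ) (q : ℕ) (hp1 : (q : ℝ) < p) (hp2 : p < q + 1) (d : ℕ) : 0 < (-1) ^ d * cf p (q + 1 + d) := by
  induction d with
  | zero =>
    simp only [pow_zero, one_mul, add_zero]
    unfold cf
    refine prod_pos fun i hi => ?_
    have : (i : ℝ) ≤ q := by exact_mod_cast (by have := mem_range.1 hi; omega : i ≤ q)
    linarith
  | succ d ih =>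
    rw [show q + 1 + (d + 1) = q + 1 + d + 1 by ring, cf_succ, pow_succ]
    push_cast
    have h1 : 0 < -(p - ((q:ℝ) + 1 + d)) := by
      have : (0:ℝ) ≤ d := by positivity
      linarith
    have h2 := mul_pos ih h1
    linarith

/-- bounds for finitely many positive numbers -/
lemma fin_bd (n : ℕ) (f g : ℕ → ℝ) (hf : ∀ m, 1 ≤ m → m ≤ n → 0 < f m) :
    ∃ c C : ℝ, 0 < c ∧ ∀ m, 1 ≤ m → m ≤ n → c ≤ f m ∧ g m ≤ C := by
  induction n with
  | zero => exact ⟨1, 1, one_pos, fun m h1 h2 => by omega⟩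
  | succ n ih =>
    obtain ⟨c, C, hc, h⟩ := ih (fun m h1 h2 => hf m h1 (by omega))
    refine ⟨min c (f (n + 1)), max C (g (n + 1)), lt_min hc (hf _ (by omega) le_rfl), fun m h1 h2 => ?_⟩
    rcases Nat.lt_or_ge n m with h3 | h3
    · have : m = n + 1 := by omega
      subst this
      exact ⟨min_le_right _ _, le_max_right _ _⟩
    · obtain ⟨h4, h5⟩ := h m h1 h3
      exact ⟨(min_le_left _ _).trans h4, h5.trans (le_max_left _ _)⟩

lemma rpow_bd {x y : ℝ} (hx : x ∈ Set.Icc (1:ℝ) 3) {Y : ℝ} (hy : |y| ≤ Y) : (3:ℝ) ^ (-Y) ≤ x ^ y ∧ x ^ y ≤ 3 ^ Y := by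
  have hx0 : 0 < x := by linarith [hx.1]
  rw [abs_le] at hy
  have hY : 0 ≤ Y := by linarith [hy.1, hy.2]
  constructor
  · rcases le_total 0 y with h | h
    · calc (3:ℝ) ^ (-Y) ≤ 1 := Real.rpow_le_one_of_one_le_of_nonpos (by norm_num) (by linarith)
        _ ≤ x ^ y := Real.one_le_rpow hx.1 h
    · calc (3:ℝ) ^ (-Y) ≤ 3 ^ y := Real.rpow_le_rpow_of_exponent_le (by norm_num) hy.1
        _ ≤ x ^ y := Real.rpow_le_rpow_of_nonpos hx0 hx.2 h
  · rcases le_total 0 y with h | h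
    · calc x ^ y ≤ 3 ^ y := Real.rpow_le_rpow hx0.le hx.2 h
        _ ≤ 3 ^ Y := Real.rpow_le_rpow_of_exponent_le (by norm_num) hy.2
    · calc x ^ y ≤ 1 := Real.rpow_le_one_of_one_le_of_nonpos hx.1 h
        _ ≤ 3 ^ Y := Real.one_le_rpow (by norm_num) hY

/-- powers with exponent in `(0,1)` -/
lemma der_small {a : ℝ} (h0 : 0 < a) (h1 : a < 1) (M : ℕ) : ∃ c₀ C₀ : ℝ, 0 < c₀ ∧ Der M c₀ C₀ (pw a) := by
  obtain ⟨c, C, hc, hb⟩ := fin_bd (M + 4) (fun m => (-1) ^ (m + 1) * cf a m * 3 ^ (-((m:ℝ) + 1)))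
    (fun m => (-1) ^ (m + 1) * cf a m * 3 ^ ((m:ℝ) + 1)) (fun m h2 _ => by
      obtain ⟨d, rfl⟩ : ∃ d, m = 0 + 1 + d := ⟨m - 1, by omega⟩
      have := cf_sign a 0 (by simpa using h0) (by simpa using h1) d
      have e : (-1 : ℝ) ^ (0 + 1 + d + 1) = (-1) ^ d := by rw [show 0 + 1 + d + 1 = d + 2 by ring, pow_add]; norm_num
      rw [e]; positivity)
  refine ⟨c, C, hc, fun m _ x hx => pw_deriv a m (by linarith [hx.1]), fun m h2 h3 x hx => ?_⟩
  obtain ⟨h4, h5⟩ := hb m h2 h3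
  have h6 : 0 < (-1) ^ (m + 1) * cf a m := by
    obtain ⟨d, rfl⟩ : ∃ d, m = 0 + 1 + d := ⟨m - 1, by omega⟩
    have := cf_sign a 0 (by simpa using h0) (by simpa using h1) d
    have e : (-1 : ℝ) ^ (0 + 1 + d + 1) = (-1) ^ d := by rw [show 0 + 1 + d + 1 = d + 2 by ring, pow_add]; norm_num
    rw [e]; exact this
  obtain ⟨h7, h8⟩ := rpow_bd hx (y := a - m) (Y := (m:ℝ) + 1) (by
    rw [abs_le]; constructor <;> linarith)
  unfold pw
  rw [← mul_assoc]
  exact ⟨h4.trans (mul_le_mul_of_nonneg_left h7 h6.le), (mul_le_mul_of_nonneg_left h8 h6.le).trans h5⟩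

/-- `A x - x^c` and its derivatives -/
def lp (A c : ℝ) (m : ℕ) (x : ℝ) : ℝ := (if m = 0 then A * x else if m = 1 then A else 0) - pw c m x

lemma der_lin {c : ℝ} (h1 : 1 < c) (h2 : c < 2) (M : ℕ) : ∃ A₀ c₀ C₀ : ℝ, 0 < A₀ ∧ 0 < c₀ ∧
    ∀ A : ℝ, A₀ ≤ A → A ≤ A₀ + 1 → Der M c₀ C₀ (lp A c) := by
  have hpos : ∀ m, 2 ≤ m → 0 < (-1) ^ m * cf c m := by
    intro m hm
    obtain ⟨d, rfl⟩ : ∃ d, m = 1 + 1 + d := ⟨m - 2, by omega⟩
    have := cf_sign c 1 (by simpa using h1) (by push_cast; linarith) d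
    have e : (-1 : ℝ) ^ (1 + 1 + d) = (-1) ^ d := by rw [show 1 + 1 + d = d + 2 by ring, pow_add]; norm_num
    rw [e]; exact this
  obtain ⟨c0, C, hc, hb⟩ := fin_bd (M + 4) (fun m => if m = 1 then 1 else (-1) ^ m * cf c m * 3 ^ (-((m:ℝ) + 2)))
    (fun m => (-1) ^ m * cf c m * 3 ^ ((m:ℝ) + 2)) (fun m h3 _ => by
      by_cases h : m = 1
      · simp [h]
      · simp only [h, if_false]
        have := hpos m (by omega)
        positivity)
  refine ⟨1 + c * 3, min c0 1, max C (2 + c * 3), by linarith, lt_min hc one_pos, fun A hA1 hA2 => ⟨fun m _ x hx => ?_, fun m h3 h4 x hx => ?_⟩⟩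
  · have hx0 : 0 < x := by linarith [hx.1]
    have h5 := pw_deriv c m hx0
    have h6 : HasDerivAt (fun x : ℝ => if m = 0 then A * x else if m = 1 then A else 0)
        (if m + 1 = 0 then A * x else if m + 1 = 1 then A else 0) x := by
      rcases Nat.eq_zero_or_pos m with h | h
      · subst h
        simpa using (hasDerivAt_id x).const_mul A
      · have h7 : m ≠ 0 := by omega
        have h8 : m + 1 ≠ 0 := by omega
        have h9 : m + 1 ≠ 1 := by omega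
        simp only [h7, h8, h9, if_false]
        exact hasDerivAt_const x _
    exact h6.sub h5
  · obtain ⟨h7, h8⟩ := rpow_bd hx (y := c - m) (Y := (m:ℝ) + 2) (by
      rw [abs_le]; constructor <;> linarith)
    by_cases h : m = 1
    · subst h
      have e : (-1 : ℝ) ^ (1 + 1) * lp A c 1 x = A - c * x ^ (c - 1) := by
        unfold lp pw cf
        simp
      rw [e]
      have h9 : x ^ (c - 1) ≤ 3 := by
        calc x ^ (c - 1) ≤ 3 ^ (c - 1) := Real.rpow_le_rpow (by linarith [hx.1]) hx.2 (by linarith)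
          _ ≤ 3 ^ (1:ℝ) := Real.rpow_le_rpow_of_exponent_le (by norm_num) (by linarith)
          _ = 3 := Real.rpow_one _
      have h10 : 0 ≤ x ^ (c - 1) := Real.rpow_nonneg (by linarith [hx.1]) _
      have h11 : c * x ^ (c - 1) ≤ c * 3 := mul_le_mul_of_nonneg_left h9 (by linarith)
      have h12 : 0 ≤ c * x ^ (c - 1) := mul_nonneg (by linarith) h10
      exact ⟨(min_le_right _ _).trans (by linarith), le_trans (by linarith) (le_max_right _ _)⟩
    · obtain ⟨h4', h5'⟩ := hb m h3 h4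
      simp only [h, if_false] at h4'
      have hm2 : 2 ≤ m := by omega
      have h0 : m ≠ 0 := by omega
      have e : (-1 : ℝ) ^ (m + 1) * lp A c m x = (-1) ^ m * cf c m * x ^ (c - m) := by
        unfold lp pw
        simp only [h0, h, if_false]
        rw [pow_succ]; ring
      rw [e]
      have h6 := hpos m hm2
      exact ⟨(min_le_left _ _).trans (h4'.trans (mul_le_mul_of_nonneg_left h7 h6.le)),
        ((mul_le_mul_of_nonneg_left h8 h6.le).trans h5').trans (le_max_left _ _)⟩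

end

end Pool.Agent.U325.DS
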