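import Mathlib

set_option autoImplicit false

/-! Almost every dilate of a separated sequence: square-root cancellation of all characters in all windows. -/

namespace Pool.Agent.U325.DS

open Finset Complex MeasureTheory Filter Topology
open scoped ENNReal

noncomputable section

/-- the sum over a dyadic block -/
def dy (f : ℕ → ℂ) (l i : ℕ) : ℂ := ∑ j ∈ range (2 ^ l), f (i * 2 ^ l + j)

/-- the sum of the squares over all dyadic blocks -/
def Q (f : ℕ → ℂ) (R : ℕ) : ℝ := ∑ l ∈ range R, ∑ i ∈ range (2 ^ (R - l)), ‖dy f l i‖ ^ 2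

lemma Q_nonneg (f : ℕ → ℂ) (R : ℕ) : 0 ≤ Q f R := by unfold Q; positivity

lemma prefix_bd (f : ℕ → ℂ) (G : ℕ → ℝ) (R' : ℕ) (hG0 : ∀ l, 0 ≤ G l)
    (hG : ∀ l ≤ R', ∀ i < 2 ^ (R' - l), ‖dy f l i‖ ≤ G l) :
    ∀ R ≤ R', ∀ i < 2 ^ (R' - R), ∀ v < 2 ^ R, ‖∑ j ∈ range v, f (i * 2 ^ R + j)‖ ≤ ∑ l ∈ range R, G l := by
  intro R
  induction R with
  | zero =>
    intro _ i _ v hv
    have : v = 0 := by simpa using hv
    subst this
    simp
  | succ R ih =>
    intro hR i hi v hv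
    have e : 2 ^ (R' - R) = 2 * 2 ^ (R' - (R + 1)) := by
      rw [show R' - R = (R' - (R + 1)) + 1 by omega, pow_succ]; ring
    rw [sum_range_succ]
    rcases lt_or_ge v (2 ^ R) with h | h
    · have h1 := ih (by omega) (2 * i) (by omega) v h
      have e2 : ∀ j : ℕ, i * 2 ^ (R + 1) + j = 2 * i * 2 ^ R + j := fun j => by rw [pow_succ]; ring
      simp only [e2]
      linarith [hG0 R]
    · obtain ⟨w, rfl⟩ := Nat.exists_eq_add_of_le h
      have hw : w < 2 ^ R := by rw [pow_succ] at hv; omega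
      have h1 := ih (by omega) (2 * i + 1) (by omega) w hw
      have h2 := hG R (by omega) (2 * i) (by omega)
      rw [sum_range_add]
      have e3 : ∑ j ∈ range (2 ^ R), f (i * 2 ^ (R + 1) + j) = dy f R (2 * i) := by
        unfold dy
        refine sum_congr rfl fun j _ => ?_
        congr 1; rw [pow_succ]; ring
      have e4 : ∀ j : ℕ, i * 2 ^ (R + 1) + (2 ^ R + j) = (2 * i + 1) * 2 ^ R + j := fun j => by rw [pow_succ]; ring
      simp only [e3, e4]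
      refine (norm_add_le _ _).trans ?_
      linarith

lemma prefix_sq (f : ℕ → ℂ) {R v : ℕ} (hv : v < 2 ^ R) : ‖∑ j ∈ range v, f j‖ ^ 2 ≤ R * Q f R := by
  set G : ℕ → ℝ := fun l => √(∑ i ∈ range (2 ^ (R - l)), ‖dy f l i‖ ^ 2) with hGd
  have h1 := prefix_bd f G R (fun l => Real.sqrt_nonneg _) (fun l _ i hi => by
    refine Real.le_sqrt_of_sq_le ?_
    exact single_le_sum (f := fun i => ‖dy f l i‖ ^ 2) (fun _ _ => by positivity) (mem_range.2 hi)) R le_rfl 0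
    (by positivity) v hv
  simp only [zero_mul, zero_add] at h1
  have h2 : (∑ l ∈ range R, G l) ^ 2 ≤ R * ∑ l ∈ range R, G l ^ 2 := by
    have := sq_sum_le_card_mul_sum_sq (s := range R) (f := G)
    simpa using this
  have h3 : ∑ l ∈ range R, G l ^ 2 = Q f R := by
    unfold Q
    refine sum_congr rfl fun l _ => ?_
    exact Real.sq_sqrt (by positivity)
  rw [h3] at h2
  exact (pow_le_pow_left₀ (norm_nonneg _) h1 2).trans h2

lemma window_sq (f : ℕ → ℂ) {R u J : ℕ} (hv : u + J < 2 ^ R) : ‖∑ j ∈ range J, f (u + j)‖ ^ 2 ≤ 4 * (R * Q f R) := by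
  have h1 := prefix_sq f hv
  have h2 := prefix_sq f (show u < 2 ^ R by omega)
  rw [sum_range_add] at h1
  set A := ∑ j ∈ range u, f j
  set B := ∑ j ∈ range J, f (u + j)
  have h3 : ‖B‖ ≤ ‖A + B‖ + ‖A‖ := by
    have := norm_sub_le (A + B) A
    simpa using this
  have h4 : ‖B‖ ^ 2 ≤ (‖A + B‖ + ‖A‖) ^ 2 := pow_le_pow_left₀ (norm_nonneg _) h3 2
  nlinarith [sq_nonneg (‖A + B‖ - ‖A‖)]

lemma normSq_sum (x : ℕ → ℝ) (s : Finset ℕ) :
    ‖∑ j ∈ s, exp (I * x j)‖ ^ 2 = ∑ j ∈ s, ∑ k ∈ s, Real.cos (x j - x k) := by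
  rw [← Complex.normSq_eq_norm_sq, Complex.normSq_apply, Complex.re_sum, Complex.im_sum]
  have e1 : ∀ j, (exp (I * x j)).re = Real.cos (x j) := fun j => by
    rw [mul_comm, Complex.exp_ofReal_mul_I_re]
  have e2 : ∀ j, (exp (I * x j)).im = Real.sin (x j) := fun j => by
    rw [mul_comm, Complex.exp_ofReal_mul_I_im]
  simp only [e1, e2, sum_mul_sum, ← sum_add_distrib, Real.cos_sub]

lemma int_cos {β : ℝ} (hβ : β ≠ 0) (X : ℝ) : ∫ h in (-X)..X, Real.cos (h * β) ≤ 2 / |β| := by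
  rw [intervalIntegral.integral_comp_mul_right (fun x => Real.cos x) hβ, integral_cos, smul_eq_mul]
  have h1 : |β⁻¹ * (Real.sin (X * β) - Real.sin (-X * β))| ≤ |β|⁻¹ * 2 := by
    rw [abs_mul, abs_inv]
    refine mul_le_mul_of_nonneg_left ?_ (by positivity)
    have h3 := Real.abs_sin_le_one (X * β)
    have h4 := Real.abs_sin_le_one (-X * β)
    rw [abs_le] at h3 h4 ⊢
    constructor <;> linarith [h3.1, h3.2, h4.1, h4.2]
  calc _ ≤ |β⁻¹ * (Real.sin (X * β) - Real.sin (-X * β))| := le_abs_self _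
    _ ≤ _ := h1
    _ = 2 / |β| := by rw [div_eq_mul_inv]; ring

lemma harm (n L : ℕ) (h : n ≤ L) : ∑ d ∈ range n, 1 / ((d : ℝ) + 1) ≤ 1 + Real.log L := by
  have h1 : ∑ d ∈ range n, 1 / ((d : ℝ) + 1) ≤ ∑ d ∈ range L, 1 / ((d : ℝ) + 1) :=
    sum_le_sum_of_subset_of_nonneg (range_mono h) (fun _ _ _ => by positivity)
  refine h1.trans ?_
  have h2 := harmonic_le_one_add_log L
  unfold harmonic at h2
  push_cast at h2
  simpa [one_div] using h2

lemma sum_inv {j L : ℕ} (hj : j < L) : ∑ k ∈ range L, 1 / |(j : ℝ) - k| ≤ 2 * (1 + Real.log L) := by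
  have e0 : ∑ k ∈ range L, 1 / |(j : ℝ) - k| = ∑ k ∈ range j, 1 / |(j : ℝ) - k| + ∑ k ∈ Ico j L, 1 / |(j : ℝ) - k| := by
    rw [range_eq_Ico, range_eq_Ico]
    exact (sum_Ico_consecutive _ (Nat.zero_le _) hj.le).symm
  rw [e0]
  have h1 : ∑ k ∈ range j, 1 / |(j : ℝ) - k| ≤ 1 + Real.log L := by
    rw [← sum_range_reflect (fun k => 1 / |(j : ℝ) - (k : ℕ)|)]
    refine le_trans (le_of_eq ?_) (harm j L hj.le)
    refine sum_congr rfl fun k hk => ?_
    have hk' := mem_range.1 hk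
    have e : (j : ℝ) - ((j - 1 - k : ℕ) : ℝ) = (k : ℝ) + 1 := by
      rw [Nat.cast_sub (by omega), Nat.cast_sub (by omega)]
      push_cast; ring
    rw [e, abs_of_pos (by positivity)]
  have h2 : ∑ k ∈ Ico j L, 1 / |(j : ℝ) - k| ≤ 1 + Real.log L := by
    rw [sum_Ico_eq_sum_range]
    obtain ⟨e, he⟩ : ∃ e, L - j = e + 1 := ⟨L - j - 1, by omega⟩
    rw [he, sum_range_succ']
    have e3 : ∀ d : ℕ, 1 / |(j : ℝ) - ((j + (d + 1) : ℕ) : ℝ)| = 1 / ((d : ℝ) + 1) := fun d => by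
      push_cast
      rw [show (j : ℝ) - (j + (d + 1)) = -((d : ℝ) + 1) by ring, abs_neg, abs_of_pos (by positivity)]
    simp only [e3]
    have := harm e L (by omega)
    simpa using this
  linarith

/-- separated sequences -/
def Sep (a : ℕ → ℝ) : Prop := ∀ j, a j + 1 ≤ a (j + 1)

lemma Sep.add {a : ℕ → ℝ} (ha : Sep a) (j d : ℕ) : a j + d ≤ a (j + d) := by
  induction d with
  | zero => simp
  | succ d ih =>
    have := ha (j + d)
    push_cast
    rw [show j + (d + 1) = j + d + 1 by ring]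
    linarith

lemma Sep.abs {a : ℕ → ℝ} (ha : Sep a) (j k : ℕ) : |(j : ℝ) - k| ≤ |a j - a k| := by
  rcases le_total j k with h | h
  · obtain ⟨d, rfl⟩ := Nat.exists_eq_add_of_le h
    have h1 := ha.add j d
    rw [abs_sub_comm, abs_sub_comm (a j)]
    push_cast
    rw [add_sub_cancel_left, abs_of_nonneg (by positivity)]
    refine le_trans ?_ (le_abs_self _)
    linarith
  · obtain ⟨d, rfl⟩ := Nat.exists_eq_add_of_le h
    have h1 := ha.add k d
    push_cast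
    rw [add_sub_cancel_left, abs_of_nonneg (by positivity)]
    refine le_trans ?_ (le_abs_self _)
    linarith

/-- the character of the sequence -/
def ch (a : ℕ → ℝ) (lam h : ℝ) (j : ℕ) : ℂ := exp (I * ((h * (a j * lam) : ℝ) : ℂ))

lemma ch_cont (a : ℕ → ℝ) (lam : ℝ) (j : ℕ) : Continuous fun h : ℝ => ch a lam h j := by
  unfold ch; fun_prop

lemma dy_cont (a : ℕ → ℝ) (lam : ℝ) (l i : ℕ) : Continuous fun h : ℝ => ‖dy (ch a lam h) l i‖ ^ 2 := by
  unfold dy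
  exact ((continuous_finsetSum _ fun j _ => ch_cont a lam _).norm).pow 2

lemma Q_cont (a : ℕ → ℝ) (lam : ℝ) (R : ℕ) : Continuous fun h : ℝ => Q (ch a lam h) R := by
  unfold Q
  exact continuous_finsetSum _ fun l _ => continuous_finsetSum _ fun i _ => dy_cont a lam l i

lemma mean_dy {a : ℕ → ℝ} (ha : Sep a) {lam : ℝ} (hl : lam ≠ 0) {X : ℝ} (l i : ℕ) :
    ∫ h in (-X)..X, ‖dy (ch a lam h) l i‖ ^ 2 ≤ 2 ^ l * (2 * X + 4 * (1 + l) / |lam|) := by
  have hl' : 0 < |lam| := abs_pos.2 hl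
  have e1 : ∀ h : ℝ, ‖dy (ch a lam h) l i‖ ^ 2 = ∑ j ∈ range (2 ^ l), ∑ k ∈ range (2 ^ l),
      Real.cos (h * ((a (i * 2 ^ l + j) - a (i * 2 ^ l + k)) * lam)) := fun h => by
    unfold dy ch
    rw [normSq_sum (fun j => h * (a (i * 2 ^ l + j) * lam))]
    refine sum_congr rfl fun j _ => sum_congr rfl fun k _ => ?_
    congr 1; ring
  simp only [e1]
  have hc : ∀ β : ℝ, IntervalIntegrable (fun h : ℝ => Real.cos (h * β)) volume (-X) X := fun β =>
    (by fun_prop : Continuous fun h : ℝ => Real.cos (h * β)).intervalIntegrable _ _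
  rw [intervalIntegral.integral_finsetSum (fun j _ => by
    exact (continuous_finsetSum _ fun k _ => by fun_prop).intervalIntegrable _ _)]
  have h1 : ∀ j ∈ range (2 ^ l), ∫ h in (-X)..X, ∑ k ∈ range (2 ^ l),
      Real.cos (h * ((a (i * 2 ^ l + j) - a (i * 2 ^ l + k)) * lam)) ≤ 2 * X + 4 * (1 + l) / |lam| := by
    intro j hj
    rw [intervalIntegral.integral_finsetSum (fun k _ => hc _)]
    have h2 : ∀ k ∈ range (2 ^ l), ∫ h in (-X)..X, Real.cos (h * ((a (i * 2 ^ l + j) - a (i * 2 ^ l + k)) * lam)) ≤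
        (if j = k then 2 * X else 0) + 2 / |lam| * (1 / |(j : ℝ) - k|) := by
      intro k _
      by_cases hjk : j = k
      · subst hjk
        simp only [sub_self, zero_mul, mul_zero, Real.cos_zero, if_true]
        simp
        linarith
      · rw [if_neg hjk, zero_add]
        have hne : (j : ℝ) - k ≠ 0 := by
          intro h; exact hjk (by exact_mod_cast sub_eq_zero.1 h)
        have hpos : 0 < |(j : ℝ) - k| := abs_pos.2 hne
        have h3 := ha.abs (i * 2 ^ l + j) (i * 2 ^ l + k)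
        have h4 : |((i * 2 ^ l + j : ℕ) : ℝ) - ((i * 2 ^ l + k : ℕ) : ℝ)| = |(j : ℝ) - k| := by
          push_cast; congr 1; ring
        rw [h4] at h3
        have h5 : a (i * 2 ^ l + j) - a (i * 2 ^ l + k) ≠ 0 := abs_pos.1 (hpos.trans_le h3)
        refine (int_cos (mul_ne_zero h5 hl) X).trans ?_
        rw [abs_mul, div_mul_div_comm, mul_one]
        refine div_le_div_of_nonneg_left (by norm_num) (by positivity) ?_
        rw [mul_comm |lam|]
        exact mul_le_mul_of_nonneg_right h3 hl'.le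
    refine (sum_le_sum h2).trans ?_
    rw [sum_add_distrib, sum_ite_eq, if_pos hj, ← mul_sum]
    have h6 := sum_inv (mem_range.1 hj)
    have h7 : Real.log ((2 ^ l : ℕ) : ℝ) ≤ l := by
      push_cast
      rw [Real.log_pow]
      have := Real.log_two_lt_d9
      have h8 : Real.log 2 ≤ 1 := by linarith
      have h9 : (0:ℝ) ≤ l := by positivity
      nlinarith
    have h8 : 2 / |lam| * ∑ k ∈ range (2 ^ l), 1 / |(j : ℝ) - k| ≤ 2 / |lam| * (2 * (1 + l)) := by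
      refine mul_le_mul_of_nonneg_left ?_ (by positivity)
      linarith
    have h9 : 2 / |lam| * (2 * (1 + (l:ℝ))) = 4 * (1 + l) / |lam| := by ring
    linarith
  refine (sum_le_sum h1).trans ?_
  rw [sum_const, card_range, nsmul_eq_mul]
  push_cast
  exact le_rfl

lemma mean_Q {a : ℕ → ℝ} (ha : Sep a) {lam : ℝ} (hl : lam ≠ 0) {X : ℝ} (hX : 0 ≤ X) (R : ℕ) :
    ∫ h in (-X)..X, Q (ch a lam h) R ≤ R * 2 ^ R * (2 * X + 4 * (1 + R)) * (1 + 1 / |lam|) := by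
  have hl' : 0 < |lam| := abs_pos.2 hl
  unfold Q
  rw [intervalIntegral.integral_finsetSum (fun l _ =>
    (continuous_finsetSum _ fun i _ => dy_cont a lam l i).intervalIntegrable _ _)]
  have h1 : ∀ l ∈ range R, ∫ h in (-X)..X, ∑ i ∈ range (2 ^ (R - l)), ‖dy (ch a lam h) l i‖ ^ 2 ≤
      2 ^ R * (2 * X + 4 * (1 + R)) * (1 + 1 / |lam|) := by
    intro l hl2
    have hlR := mem_range.1 hl2
    rw [intervalIntegral.integral_finsetSum (fun i _ => (dy_cont a lam l i).intervalIntegrable _ _)]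
    refine (sum_le_sum fun i _ => mean_dy ha hl l i).trans ?_
    rw [sum_const, card_range, nsmul_eq_mul]
    push_cast
    rw [← mul_assoc, ← pow_add, show R - l + l = R by omega, mul_assoc]
    refine mul_le_mul_of_nonneg_left ?_ (by positivity)
    have h2 : 4 * (1 + (l:ℝ)) / |lam| ≤ 4 * (1 + R) * (1 / |lam|) := by
      rw [mul_one_div]
      have : (l:ℝ) ≤ R := by exact_mod_cast hlR.le
      gcongr
    have h3 : 0 ≤ 2 * X * (1 / |lam|) := by positivity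
    have h4 : 0 ≤ 4 * (1 + (R:ℝ)) := by positivity
    nlinarith
  refine (sum_le_sum h1).trans ?_
  rw [sum_const, card_range, nsmul_eq_mul]
  exact le_of_eq (by ring)

/-- the weight of the scale -/
def wR (δ : ℝ) (R : ℕ) : ℝ := R * (((2:ℝ) ^ (-δ)) ^ R * (2 ^ R)⁻¹)

/-- the weight of an integer -/
def wI (δ : ℝ) (m : ℕ) : ℝ := (((m : ℝ) + 1) ^ (1 + δ))⁻¹

lemma wR_nonneg (δ : ℝ) (R : ℕ) : 0 ≤ wR δ R := by unfold wR; positivity
lemma wI_pos (δ : ℝ) (m : ℕ) : 0 < wI δ m := by unfold wI; positivity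

lemma wI_summable {δ : ℝ} (hδ : 0 < δ) : Summable (wI δ) := by
  have h := (Real.summable_nat_rpow_inv (p := 1 + δ)).2 (by linarith)
  have h2 := (summable_nat_add_iff 1).2 h
  refine h2.congr fun m => ?_
  unfold wI
  push_cast
  rfl

lemma wR_summable {δ : ℝ} (hδ : 0 < δ) (X : ℝ) :
    Summable fun R : ℕ => wR δ R * (R * 2 ^ R * (2 * X + 4 * (1 + R))) := by
  have hr0 : 0 < (2:ℝ) ^ (-δ) := by positivity
  have hr1 : (2:ℝ) ^ (-δ) < 1 := Real.rpow_lt_one_of_one_lt_of_neg (by norm_num) (by linarith)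
  have hn : ‖(2:ℝ) ^ (-δ)‖ < 1 := by rwa [Real.norm_of_nonneg hr0.le]
  have h2 := (summable_pow_mul_geometric_of_norm_lt_one 2 hn).mul_left (2 * X + 4)
  have h3 := (summable_pow_mul_geometric_of_norm_lt_one 3 hn).mul_left 4
  refine (h2.add h3).congr fun R => ?_
  unfold wR
  have : (2:ℝ) ^ R ≠ 0 := by positivity
  field_simp
  ring

/-- the frequency -/
def fr (m n : ℕ) : ℝ := Real.log (((m : ℝ) + 1) / ((n : ℝ) + 1))

lemma fr_ne {m n : ℕ} (h : m ≠ n) : fr m n ≠ 0 := by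
  unfold fr
  refine Real.log_ne_zero_of_pos_of_ne_one (by positivity) ?_
  intro h1
  rw [div_eq_one_iff_eq (by positivity)] at h1
  exact h (by exact_mod_cast add_right_cancel h1)

/-- the terms of the series -/
def tm (a : ℕ → ℝ) (δ : ℝ) (p : ℕ × ℕ × ℕ) (h : ℝ) : ℝ :=
  if p.2.1 = p.2.2 then 0 else
    wR δ p.1 * (wI δ p.2.1 * wI δ p.2.2) * (1 + 1 / |fr p.2.1 p.2.2|)⁻¹ * Q (ch a (fr p.2.1 p.2.2) h) p.1

lemma tm_nonneg (a : ℕ → ℝ) (δ : ℝ) (p : ℕ × ℕ × ℕ) (h : ℝ) : 0 ≤ tm a δ p h := by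
  unfold tm
  split_ifs
  · exact le_rfl
  · have h1 := wR_nonneg δ p.1
    have h2 := (wI_pos δ p.2.1).le
    have h3 := (wI_pos δ p.2.2).le
    have h4 := Q_nonneg (ch a (fr p.2.1 p.2.2) h) p.1
    positivity

lemma tm_cont (a : ℕ → ℝ) (δ : ℝ) (p : ℕ × ℕ × ℕ) : Continuous (tm a δ p) := by
  unfold tm
  split_ifs
  · exact continuous_const
  · exact continuous_const.mul (Q_cont a _ _)

lemma tm_mean {a : ℕ → ℝ} (ha : Sep a) {δ : ℝ} {X : ℝ} (hX : 0 ≤ X) (p : ℕ × ℕ × ℕ) :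
    ∫ h in (-X)..X, tm a δ p h ≤ (wR δ p.1 * (p.1 * 2 ^ p.1 * (2 * X + 4 * (1 + p.1)))) * (wI δ p.2.1 * wI δ p.2.2) := by
  have h1 := wR_nonneg δ p.1
  have h2 := (wI_pos δ p.2.1).le
  have h3 := (wI_pos δ p.2.2).le
  unfold tm
  split_ifs with h
  · simp only [intervalIntegral.integral_zero]
    positivity
  · rw [intervalIntegral.integral_const_mul]
    have h4 := mean_Q ha (fr_ne h) hX p.1
    have h5 : 0 < 1 + 1 / |fr p.2.1 p.2.2| := by positivity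
    calc _ ≤ wR δ p.1 * (wI δ p.2.1 * wI δ p.2.2) * (1 + 1 / |fr p.2.1 p.2.2|)⁻¹ *
        (p.1 * 2 ^ p.1 * (2 * X + 4 * (1 + p.1)) * (1 + 1 / |fr p.2.1 p.2.2|)) := by
          refine mul_le_mul_of_nonneg_left h4 (by positivity)
      _ = _ := by field_simp

lemma series {a : ℕ → ℝ} (ha : Sep a) {δ : ℝ} (hδ : 0 < δ) {X : ℝ} (hX : 0 ≤ X) :
    ∫⁻ h in Set.Ioc (-X) X, ∑' p : ℕ × ℕ × ℕ, ENNReal.ofReal (tm a δ p h) ≠ ⊤ := by
  rw [lintegral_tsum (fun p => (tm_cont a δ p).measurable.ennreal_ofReal.aemeasurable)]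
  have hle : -X ≤ X := by linarith
  have h1 : ∀ p : ℕ × ℕ × ℕ, ∫⁻ h in Set.Ioc (-X) X, ENNReal.ofReal (tm a δ p h) ≤
      ENNReal.ofReal ((wR δ p.1 * (p.1 * 2 ^ p.1 * (2 * X + 4 * (1 + p.1)))) * (wI δ p.2.1 * wI δ p.2.2)) := by
    intro p
    rw [← ofReal_integral_eq_lintegral_ofReal]
    · rw [← intervalIntegral.integral_of_le hle]
      exact ENNReal.ofReal_le_ofReal (tm_mean ha hX p)
    · exact (intervalIntegrable_iff_integrableOn_Ioc_of_le hle).1 ((tm_cont a δ p).intervalIntegrable _ _)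
    · exact Eventually.of_forall fun h => tm_nonneg a δ p h
  refine ne_top_of_le_ne_top ?_ (ENNReal.tsum_le_tsum h1)
  refine Summable.tsum_ofReal_ne_top ?_
  have h2 : Summable fun q : ℕ × ℕ => wI δ q.1 * wI δ q.2 :=
    (wI_summable hδ).mul_of_nonneg (wI_summable hδ) (fun m => (wI_pos δ m).le) (fun m => (wI_pos δ m).le)
  exact (wR_summable hδ X).mul_of_nonneg h2 (fun R => by have := wR_nonneg δ R; positivity)
    (fun q => by have := (wI_pos δ q.1).le; have := (wI_pos δ q.2).le; positivity)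

lemma ae_bd {a : ℕ → ℝ} (ha : Sep a) {δ : ℝ} (hδ : 0 < δ) :
    ∀ᵐ h : ℝ, ∃ C : ℝ, 0 ≤ C ∧ ∀ p : ℕ × ℕ × ℕ, tm a δ p h ≤ C := by
  have h1 : ∀ N : ℕ, ∀ᵐ h : ℝ, h ∈ Set.Ioc (-(N:ℝ)) N → ∃ C : ℝ, 0 ≤ C ∧ ∀ p : ℕ × ℕ × ℕ, tm a δ p h ≤ C := by
    intro N
    have h2 := series ha hδ (X := N) (by positivity)
    have h3 : Measurable fun h : ℝ => ∑' p : ℕ × ℕ × ℕ, ENNReal.ofReal (tm a δ p h) :=
      Measurable.ennreal_tsum fun p => (tm_cont a δ p).measurable.ennreal_ofReal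
    have h4 := ae_lt_top h3 h2
    rw [ae_restrict_iff' measurableSet_Ioc] at h4
    filter_upwards [h4] with h h5 h6
    have h7 := h5 h6
    refine ⟨(∑' p : ℕ × ℕ × ℕ, ENNReal.ofReal (tm a δ p h)).toReal, ENNReal.toReal_nonneg, fun p => ?_⟩
    have h8 := ENNReal.le_tsum (f := fun p : ℕ × ℕ × ℕ => ENNReal.ofReal (tm a δ p h)) p
    exact (ENNReal.ofReal_le_iff_le_toReal h7.ne).1 h8
  rw [← ae_all_iff] at h1
  filter_upwards [h1] with h h2
  obtain ⟨N, hN⟩ := exists_nat_gt |h|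
  rw [abs_lt] at hN
  exact h2 N ⟨hN.1, hN.2.le⟩

/-- For almost every `h` all characters have square-root cancellation along all windows of the sequence `h a_j`. -/
theorem quasi {a : ℕ → ℝ} (ha : Sep a) {δ : ℝ} (hδ : 0 < δ) :
    ∀ᵐ h : ℝ, ∃ C : ℝ, 0 ≤ C ∧ ∀ m n : ℕ, 1 ≤ m → 1 ≤ n → m ≠ n → ∀ u J : ℕ, 1 ≤ J →
      ‖∑ j ∈ range J, exp (I * ((h * a (u + j) : ℝ) * Real.log ((m : ℝ) / n)))‖ ^ 2 ≤
        C * ((m : ℝ) * n) ^ (1 + δ) * ((u + J : ℕ) : ℝ) ^ (1 + δ) * (1 + 1 / |Real.log ((m : ℝ) / n)|) := by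
  filter_upwards [ae_bd ha hδ] with h ⟨C, hC, hb⟩
  refine ⟨C * (8 * 2 ^ δ), by positivity, fun m n hm hn hmn u J hJ => ?_⟩
  obtain ⟨m, rfl⟩ : ∃ m', m = m' + 1 := ⟨m - 1, by omega⟩
  obtain ⟨n, rfl⟩ : ∃ n', n = n' + 1 := ⟨n - 1, by omega⟩
  have hmn' : m ≠ n := fun h => hmn (by rw [h])
  set R := Nat.log 2 (u + J) + 1 with hR
  have hlt : u + J < 2 ^ R := Nat.lt_pow_succ_log_self (by norm_num) _
  have hle : 2 ^ R ≤ 2 * (u + J) := by
    rw [hR, pow_succ]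
    have := Nat.pow_log_le_self 2 (show u + J ≠ 0 by omega)
    omega
  have hler : (2:ℝ) ^ R ≤ 2 * ((u + J : ℕ) : ℝ) := by exact_mod_cast hle
  have h1 := window_sq (ch a (fr m n) h) hlt
  have h2 := hb (R, m, n)
  unfold tm at h2
  rw [if_neg hmn'] at h2
  simp only at h2
  have hfr : fr m n = Real.log (((m + 1 : ℕ) : ℝ) / ((n + 1 : ℕ) : ℝ)) := by unfold fr; push_cast; rfl
  rw [← hfr]
  set lam := fr m n with hlam
  have hpos : 0 < 1 + 1 / |lam| := by positivity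
  have e1 : ∑ j ∈ range J, exp (I * ((h * a (u + j) : ℝ) * (lam : ℂ))) = ∑ j ∈ range J, ch a lam h (u + j) := by
    refine sum_congr rfl fun j _ => ?_
    unfold ch
    congr 1
    push_cast; ring
  rw [e1]
  refine h1.trans ?_
  set q := Q (ch a lam h) R with hq
  have hr0 : 0 < (2:ℝ) ^ (-δ) := by positivity
  have h3 : (R * q) ≤ C * (((2:ℝ) ^ R) * ((2:ℝ) ^ δ) ^ R) * (((m:ℝ) + 1) ^ (1 + δ) * ((n:ℝ) + 1) ^ (1 + δ)) * (1 + 1 / |lam|) := by
    have e2 : (2:ℝ) ^ (-δ) = ((2:ℝ) ^ δ)⁻¹ := Real.rpow_neg (by norm_num) _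
    unfold wR wI at h2
    rw [e2] at h2
    have p1 : 0 < ((2:ℝ) ^ δ) ^ R := by positivity
    have p2 : 0 < (2:ℝ) ^ R := by positivity
    have p3 : 0 < ((m:ℝ) + 1) ^ (1 + δ) := by positivity
    have p4 : 0 < ((n:ℝ) + 1) ^ (1 + δ) := by positivity
    have e3 : (R * (((((2:ℝ) ^ δ)⁻¹) ^ R) * (2 ^ R)⁻¹)) * ((((m : ℝ) + 1) ^ (1 + δ))⁻¹ * (((n : ℝ) + 1) ^ (1 + δ))⁻¹) *
        (1 + 1 / |lam|)⁻¹ * q = (R * q) / (((2:ℝ) ^ R * ((2:ℝ) ^ δ) ^ R) * (((m:ℝ) + 1) ^ (1 + δ) * ((n:ℝ) + 1) ^ (1 + δ)) *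
          (1 + 1 / |lam|)) := by
      rw [inv_pow]
      field_simp
    rw [e3, div_le_iff₀ (by positivity)] at h2
    linarith
  have h4 : ((2:ℝ) ^ R) * ((2:ℝ) ^ δ) ^ R ≤ 2 * 2 ^ δ * ((u + J : ℕ) : ℝ) ^ (1 + δ) := by
    have e5 : ((2:ℝ) ^ R) * ((2:ℝ) ^ δ) ^ R = ((2:ℝ) ^ R) ^ (1 + δ) := by
      rw [Real.rpow_add (by positivity), Real.rpow_one, ← Real.rpow_natCast, ← Real.rpow_natCast,
        ← Real.rpow_mul (by norm_num), ← Real.rpow_mul (by norm_num)]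
      congr 2
      ring
    rw [e5]
    refine (Real.rpow_le_rpow (by positivity) hler (by linarith)).trans (le_of_eq ?_)
    rw [Real.mul_rpow (by norm_num) (by positivity), Real.rpow_add (by norm_num), Real.rpow_one]
  have h5 : 4 * (R * q) ≤ 4 * (C * (2 * 2 ^ δ * ((u + J : ℕ) : ℝ) ^ (1 + δ)) *
      (((m:ℝ) + 1) ^ (1 + δ) * ((n:ℝ) + 1) ^ (1 + δ)) * (1 + 1 / |lam|)) := by
    refine mul_le_mul_of_nonneg_left (h3.trans ?_) (by norm_num)
    gcongr
  refine h5.trans (le_of_eq ?_)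
  push_cast
  rw [Real.mul_rpow (x := (m:ℝ) + 1) (y := (n:ℝ) + 1) (by positivity) (by positivity)]
  ring

end

end Pool.Agent.U325.DS
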